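import Pool.Agent.H6.FC.Lem

/-!
# MP_7500ea_al, board cfp_modules, rows NSK NSQ SEN SEQ PRM MNL
-/

open scoped Classical ComplexConjugate

namespace Pool.Agent.H45.FC

open FI AMc AMt

theorem nas_nc {S : Type} [Group S] (hS : NAS S) : ∀ x : S, x ≠ 1 → ∃ s, s * x ≠ x * s := by
  intro x hx
  haveI := hS.sim
  by_contra hcon
  push Not at hcon
  have h1 : Subgroup.center S = ⊥ ∨ Subgroup.center S = ⊤ :=
    Subgroup.Normal.eq_bot_or_eq_top (inferInstance : (Subgroup.center S).Normal)
  rcases h1 with h1 | h1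
  · have h2 : x ∈ Subgroup.center S := Subgroup.mem_center_iff.2 (fun s => hcon s)
    rw [h1, Subgroup.mem_bot] at h2
    exact hx h2
  · obtain ⟨a, b, hab⟩ := hS.nab
    have h2 : b ∈ Subgroup.center S := by rw [h1]; trivial
    exact hab (Subgroup.mem_center_iff.1 h2 a)

theorem nas_nt {S : Type} [Group S] (hS : NAS S) : ∃ x : S, x ≠ 1 := by
  obtain ⟨a, b, hab⟩ := hS.nab
  refine ⟨a, fun h => hab ?_⟩
  rw [h, one_mul, mul_one]

theorem pf_NSK : T_NSK := by
  intro S _ _ hS ι _ H hH
  haveI := hS.sim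
  refine ⟨{i | ∃ x ∈ H, x i ≠ 1}, fun y => ⟨fun hy i hi => ?_, fun hy => ?_⟩⟩
  · by_contra hne
    exact hi ⟨y, hy, hne⟩
  · have hall : ∀ i, (∃ x ∈ H, x i ≠ 1) → ∀ t : S, (Pi.mulSingle i t : ι → S) ∈ H := by
      rintro i ⟨x, hx, hxi⟩
      obtain ⟨s, hs⟩ := nas_nc hS _ hxi
      have hTn : (H.comap (MonoidHom.mulSingle (fun _ : ι => S) i)).Normal := hH.comap _
      rcases Subgroup.Normal.eq_bot_or_eq_top hTn with h1 | h1
      · exfalso
        have h2 : s * x i * s⁻¹ * (x i)⁻¹ ∈ H.comap (MonoidHom.mulSingle (fun _ : ι => S) i) := by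
          rw [Subgroup.mem_comap]
          have h3 : (MonoidHom.mulSingle (fun _ : ι => S) i) (s * x i * s⁻¹ * (x i)⁻¹) =
              (Pi.mulSingle i s : ι → S) * x * (Pi.mulSingle i s : ι → S)⁻¹ * x⁻¹ := by
            funext j
            by_cases hj : j = i
            · subst hj
              simp [MonoidHom.mulSingle_apply]
            · simp [MonoidHom.mulSingle_apply, Pi.mulSingle_eq_of_ne hj]
          rw [h3]
          exact H.mul_mem (hH.conj_mem x hx _) (H.inv_mem hx)
        rw [h1, Subgroup.mem_bot] at h2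
        apply hs
        have h4 : s * x i * s⁻¹ = x i := by
          rw [mul_inv_eq_one] at h2; exact h2
        rw [mul_inv_eq_iff_eq_mul] at h4
        exact h4
      · intro t
        have h2 : t ∈ H.comap (MonoidHom.mulSingle (fun _ : ι => S) i) := by rw [h1]; trivial
        exact h2
    apply Subgroup.pi_mem_of_mulSingle_mem
    intro i
    by_cases hi : ∃ x ∈ H, x i ≠ 1
    · exact hall i hi _
    · rw [hy i hi, Pi.mulSingle_one]
      exact H.one_mem

theorem equivFin {S : Type} [Group S] {k : ℕ} (I : Set (Fin k)) :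
    Nat.card I ≤ k ∧ Nonempty ((I → S) ≃* (Fin (Nat.card I) → S)) := by
  refine ⟨?_, ⟨MulEquiv.arrowCongr (Finite.equivFin I) (MulEquiv.refl S)⟩⟩
  have h1 := Finite.card_subtype_le (α := Fin k) (fun i => i ∈ I)
  rw [Nat.card_eq_fintype_card (α := Fin k), Fintype.card_fin] at h1
  exact h1

theorem pf_NSQ (NSK : T_NSK) : T_NSQ := by
  intro S _ _ hS k Q _ hQ
  obtain ⟨ψ⟩ := hQ
  constructor
  · intro N _ f hf hn
    have hHn : (f.range.map ψ.toMonoidHom).Normal := hn.map _ ψ.surjective
    obtain ⟨I, hI⟩ := NSK S hS (Fin k) _ hHn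
    have hmem : ∀ n : N, ∀ i, i ∉ I → ψ (f n) i = 1 := by
      intro n i hi
      have h1 : ψ (f n) ∈ f.range.map ψ.toMonoidHom := ⟨f n, ⟨n, rfl⟩, rfl⟩
      exact (hI _).1 h1 i hi
    let g : N →* (I → S) :=
      { toFun := fun n i => ψ (f n) i
        map_one' := by
          funext i
          simp
        map_mul' := by
          intro a b
          funext i
          simp }
    have hg : Function.Bijective g := by
      constructor
      · intro a b hab
        apply hf
        apply ψ.injective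
        funext i
        by_cases hi : i ∈ I
        · exact congrFun hab ⟨i, hi⟩
        · rw [hmem a i hi, hmem b i hi]
      · intro y
        have h1 : (fun i => if h : i ∈ I then y ⟨i, h⟩ else 1) ∈ f.range.map ψ.toMonoidHom := by
          rw [hI]
          intro i hi
          rw [dif_neg hi]
        obtain ⟨q, ⟨n, hn'⟩, hq⟩ := h1
        refine ⟨n, ?_⟩
        funext i
        change ψ (f n) i = y i
        rw [hn']
        have h2 : ψ q = fun i => if h : i ∈ I then y ⟨i, h⟩ else 1 := hq
        rw [h2]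
        simp
    obtain ⟨h1, ⟨e⟩⟩ := equivFin (S := S) I
    exact ⟨_, h1, ⟨(MulEquiv.ofBijective g hg).trans e⟩⟩
  · intro R _ f hf
    have hkn : f.ker.Normal := inferInstance
    have hHn : (f.ker.map ψ.toMonoidHom).Normal := hkn.map _ ψ.surjective
    obtain ⟨I, hI⟩ := NSK S hS (Fin k) _ hHn
    let r : Q →* ((Iᶜ : Set (Fin k)) → S) :=
      { toFun := fun n i => ψ n i
        map_one' := by
          funext i
          simp
        map_mul' := by
          intro a b
          funext i
          simp }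
    have hr : Function.Surjective r := by
      intro y
      refine ⟨ψ.symm (fun i => if h : i ∈ (Iᶜ : Set (Fin k)) then y ⟨i, h⟩ else 1), ?_⟩
      funext i
      change ψ (ψ.symm _) i = y i
      rw [MulEquiv.apply_symm_apply]
      rw [dif_pos i.2]
    have hk : f.ker = r.ker := by
      ext q
      rw [MonoidHom.mem_ker, MonoidHom.mem_ker]
      constructor
      · intro h
        funext i
        have h1 : ψ q ∈ f.ker.map ψ.toMonoidHom := ⟨q, h, rfl⟩
        exact (hI _).1 h1 i i.2
      · intro h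
        have h1 : ψ q ∈ f.ker.map ψ.toMonoidHom := by
          rw [hI]
          intro i hi
          exact congrFun h ⟨i, hi⟩
        obtain ⟨q', hq', h2⟩ := h1
        have h3 : q' = q := ψ.injective h2
        rw [← h3]
        exact hq'
    obtain ⟨h1, ⟨e⟩⟩ := equivFin (S := S) (Iᶜ : Set (Fin k))
    exact ⟨_, h1, ⟨(((QuotientGroup.quotientKerEquivOfSurjective f hf).symm.trans
      (QuotientGroup.quotientMulEquivOfEq hk)).trans
      (QuotientGroup.quotientKerEquivOfSurjective r hr)).trans e⟩⟩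

theorem pf_SEN (NSQ : T_NSQ) : T_SEN := by
  intro P hP G _ _ H hH hSer
  obtain ⟨n, M, M0, Mn, Mnor, Mmono, hfac⟩ := hSer
  refine ⟨n, fun i => (M i).subgroupOf H, ?_, ?_, ?_, ?_, ?_⟩
  · change (M 0).subgroupOf H = ⊥
    rw [M0, Subgroup.bot_subgroupOf]
  · change (M n).subgroupOf H = ⊤
    rw [Mn, Subgroup.top_subgroupOf]
  · intro i
    haveI := Mnor i
    exact Subgroup.normal_subgroupOf
  · intro i
    exact Subgroup.comap_mono (Mmono i)
  · intro i hi
    obtain ⟨Q, instQ, f, hf, hker, hQ⟩ := hfac i hi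
    let f1 : ((M (i + 1)).subgroupOf H) →* Q :=
      { toFun := fun x => f ⟨((x : H) : G), x.2⟩
        map_one' := by
          have : (⟨(((1 : (M (i + 1)).subgroupOf H) : H) : G), Subgroup.one_mem _⟩ : M (i + 1)) = 1 :=
            rfl
          exact (congrArg f this).trans (map_one f)
        map_mul' := by
          intro a b
          rw [← map_mul]
          rfl }
    have hf1 : ∀ x, f1 x = f ⟨((x : H) : G), x.2⟩ := fun x => rfl
    have hnor : f1.range.Normal := by
      constructor
      rintro _ ⟨x, rfl⟩ q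
      obtain ⟨y, rfl⟩ := hf q
      have hmem : (y : G) * ((x : H) : G) * (y : G)⁻¹ ∈ H := hH.conj_mem _ (x : H).2 _
      have hmem2 : (y : G) * ((x : H) : G) * (y : G)⁻¹ ∈ M (i + 1) :=
        (M (i + 1)).mul_mem ((M (i + 1)).mul_mem y.2 x.2) ((M (i + 1)).inv_mem y.2)
      refine ⟨⟨⟨_, hmem⟩, hmem2⟩, ?_⟩
      rw [hf1, hf1, ← map_mul, ← map_inv, ← map_mul]
      rfl
    refine ⟨f1.range, inferInstance, f1.rangeRestrict, f1.rangeRestrict_surjective, ?_, ?_⟩
    · intro x
      have h1 : f1.rangeRestrict x = 1 ↔ f1 x = 1 := by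
        rw [Subtype.ext_iff]
        rfl
      rw [h1, hf1, hker]
      rfl
    · rcases hQ with hQ | ⟨k, S, instS, finS, hPk, hQ⟩
      · left
        haveI := hQ
        infer_instance
      · right
        obtain ⟨k', hk', hiso⟩ := (NSQ S (hP.nas k S hPk) k Q hQ).1 f1.range f1.range.subtype
          Subtype.val_injective (by rw [Subgroup.range_subtype]; exact hnor)
        exact ⟨k', S, instS, finS, hP.mon k k' S hk' hPk, hiso⟩

theorem pf_SEQ (NSQ : T_NSQ) : T_SEQ := by
  intro P hP G _ _ N hN hSer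
  obtain ⟨n, M, M0, Mn, Mnor, Mmono, hfac⟩ := hSer
  have hnor : ∀ i, ((M i).map (QuotientGroup.mk' N)).Normal := fun i =>
    (Mnor i).map _ (QuotientGroup.mk'_surjective N)
  refine ⟨n, fun i => (M i).map (QuotientGroup.mk' N), ?_, ?_, hnor, ?_, ?_⟩
  · change (M 0).map (QuotientGroup.mk' N) = ⊥
    rw [M0, Subgroup.map_bot]
  · change (M n).map (QuotientGroup.mk' N) = ⊤
    rw [Mn, ← MonoidHom.range_eq_map]
    exact MonoidHom.range_eq_top.2 (QuotientGroup.mk'_surjective N)
  · intro i
    exact Subgroup.map_mono (Mmono i)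
  · intro i hi
    obtain ⟨Q, instQ, f, hf, hker, hQ⟩ := hfac i hi
    haveI := hnor i
    haveI hn2 : (((M i).map (QuotientGroup.mk' N)).subgroupOf
      ((M (i + 1)).map (QuotientGroup.mk' N))).Normal := Subgroup.normal_subgroupOf
    let Q' := ((M (i + 1)).map (QuotientGroup.mk' N)) ⧸ (((M i).map (QuotientGroup.mk' N)).subgroupOf
      ((M (i + 1)).map (QuotientGroup.mk' N)))
    let p : ((M (i + 1)).map (QuotientGroup.mk' N)) →* Q' := QuotientGroup.mk' _
    have hp : Function.Surjective p := QuotientGroup.mk'_surjective _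
    have hpk : ∀ x, p x = 1 ↔ (x : G ⧸ N) ∈ (M i).map (QuotientGroup.mk' N) := by
      intro x
      rw [← Subgroup.mem_subgroupOf]
      exact QuotientGroup.eq_one_iff x
    let g : M (i + 1) →* Q' := p.comp ((QuotientGroup.mk' N).subgroupMap (M (i + 1)))
    have hg : Function.Surjective g := hp.comp (MonoidHom.subgroupMap_surjective _ _)
    have hfg : f.ker ≤ g.ker := by
      intro x hx
      rw [MonoidHom.mem_ker] at hx ⊢
      have h1 : (x : G) ∈ M i := (hker x).1 hx
      exact (hpk _).2 ⟨(x : G), h1, rfl⟩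
    let g' : Q →* Q' := f.liftOfSurjective hf ⟨g, hfg⟩
    have hg' : ∀ x, g' (f x) = g x := fun x =>
      MonoidHom.liftOfRightInverse_comp_apply f _ _ ⟨g, hfg⟩ x
    have hg's : Function.Surjective g' := by
      intro y
      obtain ⟨x, hx⟩ := hg y
      exact ⟨f x, (hg' x).trans hx⟩
    refine ⟨Q', inferInstance, p, hp, hpk, ?_⟩
    rcases hQ with hQ | ⟨k, S, instS, finS, hPk, hQ⟩
    · left
      haveI := hQ
      exact Group.isSolvable_of_surjective hg's
    · right
      obtain ⟨k', hk', hiso⟩ := (NSQ S (hP.nas k S hPk) k Q hQ).2 Q' g' hg's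
      exact ⟨k', S, instS, finS, hP.mon k k' S hk' hPk, hiso⟩

theorem pf_MNL (SOL : T_SOL) : T_MNL := by
  intro P Y _ _ _ hsol hSer
  obtain ⟨n, M, M0, Mn, Mnor, Mmono, hfac⟩ := hSer
  have hex : ∃ i, M (i + 1) ≠ ⊥ := by
    refine ⟨n - 1, ?_⟩
    have hn : n ≠ 0 := by
      intro h
      rw [h, M0] at Mn
      exact bot_ne_top Mn
    rw [Nat.sub_add_cancel (Nat.one_le_iff_ne_zero.2 hn), Mn]
    exact (bot_ne_top).symm
  have h0 := Nat.find_spec hex
  have h1 : ∀ j, j < Nat.find hex → M (j + 1) = ⊥ := fun j hj =>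
    not_not.1 (Nat.find_min hex hj)
  set i := Nat.find hex with hi
  have h2 : M i = ⊥ := by
    rcases Nat.eq_zero_or_pos i with h | h
    · rw [h]; exact M0
    · have h3 := h1 (i - 1) (by omega)
      rwa [Nat.sub_add_cancel h] at h3
  have hin : i < n := by
    by_contra hcon
    push Not at hcon
    have hmon : Monotone M := monotone_nat_of_le_succ Mmono
    have h3 := hmon hcon
    rw [h2, Mn] at h3
    exact absurd (le_bot_iff.1 h3) (bot_ne_top).symm
  obtain ⟨Q, instQ, f, hf, hker, hQ⟩ := hfac i hin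
  have hinj : Function.Injective f := by
    rw [injective_iff_map_eq_one]
    intro x hx
    have h3 := (hker x).1 hx
    rw [h2, Subgroup.mem_bot] at h3
    exact Subtype.ext h3
  let e : M (i + 1) ≃* Q := MulEquiv.ofBijective f ⟨hinj, hf⟩
  rcases hQ with hQ | ⟨k, S, instS, finS, hPk, ⟨hQ⟩⟩
  · exfalso
    haveI := hQ
    have h3 : Group.IsSolvable (M (i + 1)) := Group.isSolvable_of_isSolvable_injective hinj
    have h4 := (SOL Y).2.1 (M (i + 1)) (Mnor _) h3
    rw [hsol] at h4
    exact h0 (le_bot_iff.1 h4)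
  · refine ⟨M (i + 1), Mnor _, k, S, instS, finS, ?_, hPk, ⟨e.trans hQ⟩⟩
    by_contra hk
    have hk0 : k = 0 := by omega
    subst hk0
    apply h0
    rw [Subgroup.eq_bot_iff_forall]
    intro x hx
    have h3 : (e.trans hQ) ⟨x, hx⟩ = (e.trans hQ) 1 := by
      funext j
      exact j.elim0
    have h4 := (e.trans hQ).injective h3
    exact congrArg Subtype.val h4

end Pool.Agent.H45.FC
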