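import Pool.Agent.H45.FC.N

/-!
# MP_7500ea_al, board cfp_modules, row PRM
-/

open scoped Classical ComplexConjugate

namespace Pool.Agent.H45.FC

open FI AMc AMt

/-- the `i`-th factor -/
noncomputable def fac (S ι : Type) [Group S] (i : ι) : Subgroup (ι → S) :=
  (MonoidHom.mulSingle (fun _ : ι => S) i).range

theorem fac_apply {S ι : Type} [Group S] {i : ι} {x : ι → S} (hx : x ∈ fac S ι i) (j : ι)
    (hj : j ≠ i) : x j = 1 := by
  obtain ⟨s, rfl⟩ := hx
  rw [MonoidHom.mulSingle_apply, Pi.mulSingle_eq_of_ne hj]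

theorem fac_single {S ι : Type} [Group S] (i : ι) (s : S) :
    (Pi.mulSingle i s : ι → S) ∈ fac S ι i := ⟨s, rfl⟩

theorem fac_normal (S ι : Type) [Group S] (i : ι) : (fac S ι i).Normal := by
  constructor
  rintro _ ⟨s, rfl⟩ y
  refine ⟨y i * s * (y i)⁻¹, ?_⟩
  funext j
  by_cases hj : j = i
  · subst hj
    simp [MonoidHom.mulSingle_apply]
  · simp [MonoidHom.mulSingle_apply, Pi.mulSingle_eq_of_ne hj]

theorem fac_ext {S ι : Type} [Group S] {i : ι} {x y : ι → S} (hx : x ∈ fac S ι i)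
    (hy : y ∈ fac S ι i) (h : x i = y i) : x = y := by
  funext j
  by_cases hj : j = i
  · subst hj; exact h
  · rw [fac_apply hx j hj, fac_apply hy j hj]

theorem exists_fac (NSK : T_NSK) {S : Type} [Group S] [Finite S] (hS : NAS S) {ι : Type}
    [Fintype ι] (α : MulAut (ι → S)) (i : ι) :
    ∃ j, ∀ s : S, α (Pi.mulSingle i s) ∈ fac S ι j := by
  haveI := hS.sim
  have hn : ((fac S ι i).map (α : (ι → S) ≃* (ι → S)).toMonoidHom).Normal :=
    (fac_normal S ι i).map _ (MulEquiv.surjective α)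
  obtain ⟨I, hI⟩ := NSK S hS ι _ hn
  obtain ⟨x0, hx0⟩ := nas_nt hS
  have h1 : α (Pi.mulSingle i x0) ≠ 1 := by
    intro h
    have h2 : α (Pi.mulSingle i x0) = α 1 := h.trans (map_one α).symm
    have h3 : (Pi.mulSingle i x0 : ι → S) = 1 := MulEquiv.injective α h2
    have h4 := congrFun h3 i
    rw [Pi.mulSingle_eq_same] at h4
    exact hx0 h4
  obtain ⟨j, hj⟩ := Function.ne_iff.1 h1
  have hjI : j ∈ I := by
    by_contra hcon
    have h2 : α (Pi.mulSingle i x0) ∈ (fac S ι i).map (α : (ι → S) ≃* (ι → S)).toMonoidHom :=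
      ⟨_, fac_single i x0, rfl⟩
    exact hj ((hI _).1 h2 j hcon)
  have h5 : (Pi.mulSingle j x0 : ι → S) ∈
      (fac S ι i).map (α : (ι → S) ≃* (ι → S)).toMonoidHom := by
    rw [hI]
    intro l hl
    have : l ≠ j := fun h => hl (h ▸ hjI)
    rw [Pi.mulSingle_eq_of_ne this]
  obtain ⟨y, ⟨s', rfl⟩, hy⟩ := h5
  have hTn : ((fac S ι j).comap (((α : (ι → S) ≃* (ι → S)).toMonoidHom).comp
      (MonoidHom.mulSingle (fun _ : ι => S) i))).Normal := (fac_normal S ι j).comap _
  refine ⟨j, fun s => ?_⟩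
  rcases Subgroup.Normal.eq_bot_or_eq_top hTn with h6 | h6
  · exfalso
    have h7 : s' ∈ (fac S ι j).comap (((α : (ι → S) ≃* (ι → S)).toMonoidHom).comp
        (MonoidHom.mulSingle (fun _ : ι => S) i)) := by
      rw [Subgroup.mem_comap]
      have h8 : (((α : (ι → S) ≃* (ι → S)).toMonoidHom).comp
        (MonoidHom.mulSingle (fun _ : ι => S) i)) s' = Pi.mulSingle j x0 := hy
      rw [h8]
      exact fac_single j x0
    rw [h6, Subgroup.mem_bot] at h7
    rw [h7] at hy
    have h9 := congrFun hy j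
    rw [Pi.mulSingle_eq_same] at h9
    apply hx0
    rw [← h9]
    have h10 : (MonoidHom.mulSingle (fun _ : ι => S) i) 1 = 1 := map_one _
    rw [h10, map_one]
    rfl
  · have h7 : s ∈ (fac S ι j).comap (((α : (ι → S) ≃* (ι → S)).toMonoidHom).comp
        (MonoidHom.mulSingle (fun _ : ι => S) i)) := by rw [h6]; trivial
    exact h7

theorem pf_PRM (NSK : T_NSK) : T_PRM := by
  intro S _ _ hS ι _ α
  obtain ⟨x0, hx0⟩ := nas_nt hS
  choose σ0 hσ0 using fun i => exists_fac NSK hS α i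
  -- the endomorphisms
  let b : ι → (S →* S) := fun i =>
    ((Pi.evalMonoidHom (fun _ : ι => S) (σ0 i)).comp
      (α : (ι → S) ≃* (ι → S)).toMonoidHom).comp (MonoidHom.mulSingle (fun _ : ι => S) i)
  have hb : ∀ i s, b i s = α (Pi.mulSingle i s) (σ0 i) := fun i s => rfl
  have hbinj : ∀ i, Function.Injective (b i) := by
    intro i s t hst
    rw [hb, hb] at hst
    have h1 := fac_ext (hσ0 i s) (hσ0 i t) hst
    exact Pi.mulSingle_injective (M := fun _ : ι => S) i (MulEquiv.injective α h1)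
  have hbb : ∀ i, Function.Bijective (b i) := fun i =>
    Finite.injective_iff_bijective.1 (hbinj i)
  have hinj : Function.Injective σ0 := by
    intro i i' h
    by_contra hne
    obtain ⟨s, hs⟩ := (hbb i).2 (α (Pi.mulSingle i' x0) (σ0 i))
    rw [hb] at hs
    have h1 : α (Pi.mulSingle i s) = α (Pi.mulSingle i' x0) := by
      apply fac_ext (hσ0 i s) _ hs
      rw [h]
      exact hσ0 i' x0
    have h2 := congrFun (MulEquiv.injective α h1) i'
    rw [Pi.mulSingle_eq_same, Pi.mulSingle_eq_of_ne (Ne.symm hne)] at h2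
    exact hx0 h2.symm
  let σ : Equiv.Perm ι := Equiv.ofBijective σ0 (Finite.injective_iff_bijective.1 hinj)
  have hσ : ∀ i, σ i = σ0 i := fun i => rfl
  let a : ι → MulAut S := fun i => MulEquiv.ofBijective (b i) (hbb i)
  have ha : ∀ i s, a i s = α (Pi.mulSingle i s) (σ0 i) := fun i s => rfl
  have hform : ∀ x i, α x (σ i) = a i (x i) := by
    intro x i
    have h1 : (Pi.mulSingle i (x i))⁻¹ * x ∈ ((Pi.evalMonoidHom (fun _ : ι => S) (σ0 i)).comp
      (α : (ι → S) ≃* (ι → S)).toMonoidHom).ker := by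
      apply Subgroup.pi_mem_of_mulSingle_mem
      intro j
      by_cases hj : j = i
      · subst hj
        have h2 : ((Pi.mulSingle j (x j) : ι → S)⁻¹ * x) j = 1 := by
          rw [Pi.mul_apply, Pi.inv_apply, Pi.mulSingle_eq_same, inv_mul_cancel]
        rw [h2, Pi.mulSingle_one]
        exact Subgroup.one_mem _
      · rw [MonoidHom.mem_ker]
        exact fac_apply (hσ0 j _) (σ0 i) (fun h => hj (hinj h).symm)
    have h3 : α ((Pi.mulSingle i (x i))⁻¹ * x) (σ0 i) = 1 := h1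
    rw [map_mul, map_inv, Pi.mul_apply, Pi.inv_apply, inv_mul_eq_one] at h3
    rw [hσ, ha, ← h3]
  refine ⟨σ, a, hform, ?_⟩
  intro σ' a' h'
  have hs : σ' = σ := by
    apply Equiv.ext
    intro i
    by_contra hne
    have hj : σ (σ⁻¹ (σ' i)) = σ' i := σ.apply_symm_apply (σ' i)
    have hji : σ⁻¹ (σ' i) ≠ i := by
      intro h
      rw [h] at hj
      exact hne hj.symm
    have h1 := h' (Pi.mulSingle (σ⁻¹ (σ' i)) x0) i
    have h2 := hform (Pi.mulSingle (σ⁻¹ (σ' i)) x0) (σ⁻¹ (σ' i))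
    rw [hj, h1, Pi.mulSingle_eq_same, Pi.mulSingle_eq_of_ne (Ne.symm hji), map_one] at h2
    have h3 : a (σ⁻¹ (σ' i)) x0 = a (σ⁻¹ (σ' i)) 1 := by rw [← h2, map_one]
    exact hx0 (MulEquiv.injective _ h3)
  refine ⟨hs, ?_⟩
  funext i
  apply MulEquiv.ext
  intro s
  have h1 := h' (Pi.mulSingle i s) i
  have h2 := hform (Pi.mulSingle i s) i
  rw [Pi.mulSingle_eq_same] at h1 h2
  rw [← h1, ← h2, hs]

end Pool.Agent.H45.FC
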